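import Mathlib

set_option autoImplicit false

namespace Pool.Agent.Results.MP_51a8c5_co.AllDegrees
open Finset Polynomial
open scoped Classical

/-- the vertex sets that induce a (nonempty) connected subgraph -/
noncomputable def connSets {V : Type} [Fintype V] (G : SimpleGraph V) : Finset (Finset V) :=
  univ.filter fun S => (G.induce (S : Set V)).Connected

/-- the connected set polynomial -/
noncomputable def cpoly {V : Type} [Fintype V] (G : SimpleGraph V) : ℝ[X] :=
  ∑ S ∈ connSets G, X ^ S.card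

/-- the node reliability polynomial -/
noncomputable def nrel {V : Type} [Fintype V] (G : SimpleGraph V) : ℝ[X] :=
  ∑ S ∈ connSets G, X ^ S.card * (1 - X) ^ (Fintype.card V - S.card)

/-- every complex root is real -/
def AllReal (P : ℝ[X]) : Prop := ∀ z : ℂ, aeval z P = 0 → z.im = 0

def cl {V ι : Type} (c : V → ι) : SimpleGraph V where
  Adj u v := u ≠ v ∧ c u = c v
  symm := ⟨fun _ _ h => ⟨h.1.symm, h.2.symm⟩⟩
  loopless := ⟨fun _ h => h.1 rfl⟩

theorem reach {V ι : Type} (c : V → ι) {u v : V} (h : (cl c).Reachable u v) : c u = c v := by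
  obtain ⟨p⟩ := h
  induction p with
  | nil => rfl
  | cons h _ ih => exact h.2.trans ih

theorem cpoly_cl {V ι : Type} [Fintype V] [Fintype ι] (c : V → ι) (s : ι → ℕ)
    (hs : ∀ i, (univ.filter fun v => c v = i).card = s i) :
    cpoly (cl c) = ∑ i, ((1 + X) ^ s i - 1) := by
  have h1 : connSets (cl c) =
      univ.biUnion fun i => (univ.filter fun v => c v = i).powerset.erase ∅ := by
    ext S
    simp only [connSets, mem_filter, mem_univ, true_and, mem_biUnion, mem_erase, mem_powerset]
    constructor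
    · intro h
      obtain ⟨⟨u, hu⟩⟩ := h.nonempty
      refine ⟨c u, ne_empty_of_mem hu, fun v hv => ?_⟩
      have := (h.preconnected ⟨v, hv⟩ ⟨u, hu⟩).map (SimpleGraph.Embedding.induce _).toHom
      simpa using reach c this
    · rintro ⟨i, h0, h⟩
      obtain ⟨u, hu⟩ := nonempty_iff_ne_empty.2 h0
      have : Nonempty (S : Set V) := ⟨⟨u, hu⟩⟩
      refine ⟨fun a b => ?_⟩
      by_cases e : a = b
      · rw [e]
      · refine SimpleGraph.Adj.reachable ⟨fun e' => e (Subtype.ext e'), ?_⟩
        exact (mem_filter.1 (h a.2)).2.trans (mem_filter.1 (h b.2)).2.symm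
  rw [cpoly, h1, sum_biUnion]
  · refine sum_congr rfl fun i _ => ?_
    rw [sum_erase_eq_sub (empty_mem_powerset _), ← hs, ← prod_const (1 + X), prod_one_add]
    simp
  · intro i _ j _ hij
    refine disjoint_left.2 fun S h1 h2 => hij ?_
    obtain ⟨u, hu⟩ := nonempty_iff_ne_empty.2 (mem_erase.1 h1).1
    exact (mem_filter.1 (mem_powerset.1 (mem_erase.1 h1).2 hu)).2.symm.trans
      (mem_filter.1 (mem_powerset.1 (mem_erase.1 h2).2 hu)).2

def b (D k : ℕ) : ℕ := D.choose k * (D + 1) ^ (D - k)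

theorem b_lt (D k : ℕ) (h : k ≤ D) : b D (k + 1) < b D k := by
  unfold b
  rcases h.eq_or_lt with rfl | h
  · simp
  · have h1 := Nat.choose_succ_right_eq D k
    have h2 : 0 < D.choose k := Nat.choose_pos h.le
    have h3 : D.choose (k + 1) < D.choose k * (D + 1) := by
      have : D.choose k * (D - k) < D.choose k * (D + 1) := by
        apply Nat.mul_lt_mul_of_pos_left <;> omega
      nlinarith
    rw [show D - k = (D - (k + 1)) + 1 by omega, pow_succ', ← mul_assoc]
    exact Nat.mul_lt_mul_of_pos_right h3 (by positivity)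

theorem ident {R : Type} [CommRing R] (D : ℕ) (t : R) :
    ∑ k ∈ range (D + 1), ((b D k - b D (k + 1) : ℕ) : R) * (t ^ (k + 1) - 1) =
      (t - 1) * (t + (D + 1 : ℕ)) ^ D := by
  have h1 : ∑ k ∈ range (D + 1), (b D (k + 1) : R) * (t ^ (k + 1) - 1) =
      ∑ k ∈ range (D + 1), (b D k : R) * (t ^ k - 1) := by
    have h2 := sum_range_succ' (fun k => (b D k : R) * (t ^ k - 1)) (D + 1)
    rw [sum_range_succ] at h2
    simpa [b] using h2.symm
  rw [sum_congr rfl fun k hk => by
    rw [Nat.cast_sub (b_lt D k (Nat.lt_succ_iff.1 (mem_range.1 hk))).le, sub_mul],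
    sum_sub_distrib, h1, ← sum_sub_distrib, add_pow, mul_sum]
  refine sum_congr rfl fun k _ => ?_
  simp only [b]
  push_cast
  ring

theorem result (d : ℕ) : ∃ (V : Type) (_ : Fintype V) (G : SimpleGraph V),
    ¬ G.Preconnected ∧ d ≤ (cpoly G).natDegree ∧ AllReal (cpoly G) ∧ AllReal (nrel G) := by
  let D := d + 1
  let ι := Σ k : Fin (D + 1), Fin (b D k - b D (k + 1))
  let V := Σ i : ι, Fin (i.1 + 1)
  have hC : cpoly (cl (Sigma.fst : V → ι)) = X * (X + C ((D + 2 : ℕ) : ℝ)) ^ D := by
    have h1 : ∀ i : ι, (univ.filter fun v : V => v.1 = i).card = i.1 + 1 := by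
      intro i
      have : (univ.filter fun v : V => v.1 = i) = univ.map (Function.Embedding.sigmaMk i) := by
        ext ⟨j, x⟩
        simp only [mem_filter, mem_univ, true_and, mem_map, Function.Embedding.sigmaMk_apply]
        exact ⟨by rintro rfl; exact ⟨x, rfl⟩, fun ⟨_, h⟩ => (congrArg Sigma.fst h).symm⟩
      simp [this]
    rw [cpoly_cl _ (fun i => i.1 + 1) (fun i => by convert h1 i), Fintype.sum_sigma]
    simp only [sum_const, card_univ, Fintype.card_fin, nsmul_eq_mul]
    rw [Fin.sum_univ_eq_sum_range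
      (fun k => ((b D k - b D (k + 1) : ℕ) : ℝ[X]) * ((1 + X) ^ (k + 1) - 1)), ident, map_natCast]
    push_cast
    ring
  have hR : ∀ z : ℂ, aeval z (cpoly (cl (Sigma.fst : V → ι))) = 0 → z = 0 ∨ z = -(D + 2 : ℕ) := by
    intro z hz
    rw [hC] at hz
    simp only [map_mul, aeval_X, map_pow, map_add, map_natCast, mul_eq_zero] at hz
    exact hz.imp id fun h => eq_neg_of_add_eq_zero_left (pow_eq_zero_iff (by omega) |>.1 h)
  refine ⟨V, inferInstance, cl Sigma.fst, fun h => ?_, ?_, fun z hz => ?_, fun z hz => ?_⟩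
  · have := reach _ (h ⟨⟨0, ⟨0, Nat.sub_pos_of_lt (b_lt _ _ (by simp))⟩⟩, 0⟩
      ⟨⟨Fin.last D, ⟨0, Nat.sub_pos_of_lt (b_lt _ _ (by simp))⟩⟩, 0⟩)
    simpa [D, Fin.ext_iff] using congrArg Sigma.fst this
  · rw [hC, natDegree_X_mul (pow_ne_zero _ (X_add_C_ne_zero _)), natDegree_pow, natDegree_X_add_C]
    omega
  · rcases hR z hz with rfl | rfl <;> simp
  · by_cases h1 : z = 1
    · simp [h1]
    have h2 : 1 - z ≠ 0 := sub_ne_zero.2 (Ne.symm h1)
    have h3 : aeval z (nrel (cl (Sigma.fst : V → ι))) =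
        (1 - z) ^ Fintype.card V * aeval (z / (1 - z)) (cpoly (cl (Sigma.fst : V → ι))) := by
      simp only [nrel, cpoly, map_sum, map_mul, map_pow, aeval_X, map_sub, map_one, mul_sum]
      refine sum_congr rfl fun S _ => ?_
      rw [pow_sub₀ _ h2 S.card_le_univ, div_pow]
      ring
    rw [h3, mul_eq_zero] at hz
    rcases hR _ (hz.resolve_left (pow_ne_zero _ h2)) with h | h
    · rw [(div_eq_zero_iff.1 h).resolve_right h2]; simp
    · rw [div_eq_iff h2] at h
      have h4 := congrArg Complex.im h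
      simp at h4
      have : (0 : ℝ) ≤ D := by positivity
      nlinarith

end Pool.Agent.Results.MP_51a8c5_co.AllDegrees
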